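import Pool.Agent.Helper39.ETC.G49
import Pool.Agent.Helper82.ETC.G3

/-!
# Block ETC-G1011 (MP_600e55_nt): kum_surj, cob_of_cobK
Proof: helper39.
-/

set_option autoImplicit false

namespace Pool.Helper37.ETC

open Module

section Galois

variable {p : ℕ} [Fact p.Prime] {G K : Type*} [Group G] [TopologicalSpace G]
  [IsTopologicalGroup G] [CompactSpace G] [T2Space G] [TotallyDisconnectedSpace G] [Field K]
  [MulSemiringAction G K] {ζ : K}

/-- G10 (uses G3) -/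
theorem kum_surj (Gd : Good p G K ζ) {χ : G → ZMod p} (hχ : IsCh p χ) :
    ∃ a ∈ (Fx G : Set K), a ≠ 0 ∧ IsKum ζ a χ := by
  have hp : p.Prime := Fact.out
  have hζ0 : ζ ≠ 0 := Gd.root_ne
  obtain ⟨x, hx0, hx⟩ := h90 Gd.cont Gd.faith (fun σ => ζ ^ (χ σ).val)
    (fun σ => pow_ne_zero _ hζ0) (hχ.2.comp (fun i : ZMod p => ζ ^ i.val)) (fun σ τ => by
      show ζ ^ (χ (σ * τ)).val = ζ ^ (χ σ).val * σ • ζ ^ (χ τ).val
      rw [hχ.1, Gd.pow_add, smul_pow', Gd.fix])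
  have hx' : ∀ σ : G, σ • x = ζ ^ (χ σ).val * x := fun σ => by
    have := hx σ
    rw [this, div_mul_cancel₀ _ hx0]
  refine ⟨x ^ p, fun σ => ?_, pow_ne_zero _ hx0, ?_⟩
  · rw [smul_pow', hx', mul_pow, ← pow_mul, mul_comm _ p, pow_mul, Gd.prim.pow_eq_one, one_pow,
      one_mul]
  · intro β hβ σ
    obtain ⟨j, hj⟩ := Gd.exists_pow (x := β / x)
      (by rw [div_pow, hβ, div_self (pow_ne_zero _ hx0)])
    have e : β = ζ ^ j.val * x := by rw [hj, div_mul_cancel₀ _ hx0]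
    rw [e, smul_mul', smul_pow', Gd.fix, hx' σ]
    ring

/-- G11 (uses G3: a coboundary in `Kˣ` which is a power of `ζ` is a coboundary in `ZMod p`) -/
theorem cob_of_cobK (Gd : Good p G K ζ) {c : G → G → ZMod p} (g : G → K) (hg : ∀ σ, g σ ≠ 0)
    (hlc : IsLocallyConstant g) (h : ∀ σ τ, ζ ^ (c σ τ).val * g (σ * τ) = g σ * σ • g τ) :
    IsCob p c := by
  have hp : p.Prime := Fact.out
  have hζ0 : ζ ≠ 0 := Gd.root_ne
  have hζp : ∀ n : ℕ, (ζ ^ n) ^ p = 1 := fun n => by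
    rw [← pow_mul, mul_comm, pow_mul, Gd.prim.pow_eq_one, one_pow]
  obtain ⟨z, hz0, hz⟩ := h90 Gd.cont Gd.faith (fun σ => g σ ^ p)
    (fun σ => pow_ne_zero _ (hg σ)) (hlc.comp (fun x : K => x ^ p)) (fun σ τ => by
      show g (σ * τ) ^ p = g σ ^ p * σ • g τ ^ p
      rw [smul_pow', ← mul_pow, ← h σ τ, mul_pow, hζp, one_mul])
  obtain ⟨y, hy⟩ := Gd.root z
  have hy0 : y ≠ 0 := by
    rintro rfl
    rw [zero_pow hp.ne_zero] at hy
    exact hz0 hy.symm
  have hσy : ∀ σ : G, σ • y ≠ 0 := fun σ => (smul_ne_zero_iff_ne σ).2 hy0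
  have hex : ∀ σ : G, ∃ i : ZMod p, ζ ^ i.val = g σ * y / σ • y := by
    intro σ
    apply Gd.exists_pow
    have h1 := hz σ
    have h1' : g σ ^ p = σ • z / z := h1
    rw [div_pow, mul_pow, ← smul_pow', h1', hy]
    have h2 : σ • z ≠ 0 := (smul_ne_zero_iff_ne σ).2 hz0
    field_simp
  choose f hf using hex
  have hf' : ∀ σ, g σ = ζ ^ (f σ).val * σ • y / y := fun σ => by
    rw [hf]
    have := hσy σ
    field_simp
  refine ⟨f, ?_, fun σ τ => ?_⟩
  · -- locally constant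
    have h1 : IsLocallyConstant (fun σ : G => (g σ, σ • y)) := by
      have h2 : IsLocallyConstant (fun σ : G => σ • y) :=
        Gd.isLocConst _ y (fun σ τ h => h)
      exact hlc.prodMk h2
    have h3 : ∃ φ : K × K → ZMod p, ∀ σ, f σ = φ (g σ, σ • y) := by
      classical
      refine ⟨fun q => if hq : ∃ i : ZMod p, ζ ^ i.val = q.1 * y / q.2 then hq.choose else 0,
        fun σ => ?_⟩
      have hq : ∃ i : ZMod p, ζ ^ i.val = g σ * y / σ • y := ⟨f σ, hf σ⟩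
      simp only [hq, dite_true]
      apply Gd.pow_inj
      rw [hf, hq.choose_spec]
    obtain ⟨φ, hφ⟩ := h3
    have h4 : f = φ ∘ (fun σ : G => (g σ, σ • y)) := funext hφ
    rw [h4]
    exact h1.comp φ
  · have e1 : c σ τ + f (σ * τ) = f σ + f τ := by
      apply Gd.pow_inj
      rw [Gd.pow_add, Gd.pow_add]
      have h1 := h σ τ
      rw [hf' (σ * τ), hf' σ, hf' τ, smul_div₀', smul_mul', smul_pow', Gd.fix, mul_smul] at h1
      have h2 : σ • τ • y ≠ 0 := (smul_ne_zero_iff_ne σ).2 (hσy τ)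
      have h3 := hσy σ
      field_simp at h1
      exact h1
    rw [← e1]; ring

end Galois

end Pool.Helper37.ETC
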