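import Pool.Agent.Helper37.ETC.Defs

/-!
# Block ETC-G49 (MP_600e55_nt): Good.sub, Good.pp, kum_exists, kum_unique, kum_mul, kum_zero
Proof: helper39.
-/

set_option autoImplicit false

namespace Pool.Helper37.ETC

open Module

section Galois

variable {p : ℕ} [Fact p.Prime] {G K : Type*} [Group G] [TopologicalSpace G]
  [IsTopologicalGroup G] [CompactSpace G] [T2Space G] [TotallyDisconnectedSpace G] [Field K]
  [MulSemiringAction G K] {ζ : K}

omit [IsTopologicalGroup G] [CompactSpace G] [T2Space G] [TotallyDisconnectedSpace G]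
  [Fact p.Prime] in
theorem Good.root_ne (Gd : Good p G K ζ) : ζ ≠ 0 := by
  intro h
  have := Gd.prim.pow_eq_one
  by_cases hp : p = 0
  · subst hp
    obtain ⟨y, hy⟩ := Gd.root 0
    rw [pow_zero] at hy
    exact one_ne_zero hy
  · rw [h, zero_pow hp] at this
    exact zero_ne_one this

omit [T2Space G] [TotallyDisconnectedSpace G] [Fact p.Prime] in
/-- an open subgroup contains the common stabiliser of finitely many elements. -/
theorem Good.exists_finset (Gd : Good p G K ζ) (N : Subgroup G) (hN : IsOpen (N : Set G)) :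
    ∃ X : Finset K, ∀ σ : G, (∀ x ∈ X, σ • x = x) → σ ∈ N := by
  classical
  have hcover : ((N : Set G)ᶜ) ⊆ ⋃ x : K, ({σ : G | σ • x = x}ᶜ) := by
    intro g hg
    have hg1 : g ≠ 1 := by rintro rfl; exact hg N.one_mem
    have : ∃ x : K, g • x ≠ x := by
      by_contra hcon
      push Not at hcon
      exact hg1 (Gd.faith g hcon)
    obtain ⟨x, hx⟩ := this
    exact Set.mem_iUnion.2 ⟨x, hx⟩
  have hclosed : ∀ x : K, IsClosed {σ : G | σ • x = x} := fun x =>
    Subgroup.isClosed_of_isOpen (MulAction.stabilizer G x) (Gd.cont x)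
  obtain ⟨X, hX⟩ := (hN.isClosed_compl.isCompact).elim_finite_subcover
    (fun x : K => ({σ : G | σ • x = x}ᶜ)) (fun x => (hclosed x).isOpen_compl) hcover
  refine ⟨X, fun σ hσ => ?_⟩
  by_contra hσN
  obtain ⟨x, hx⟩ := Set.mem_iUnion.1 (hX hσN)
  obtain ⟨hxX, hx⟩ := Set.mem_iUnion.1 hx
  exact hx (hσ x hxX)

omit [IsTopologicalGroup G] [CompactSpace G] [T2Space G] [TotallyDisconnectedSpace G]
  [Fact p.Prime] in
/-- G4 (closed subgroups) -/
theorem Good.sub (Gd : Good p G K ζ) (D : Subgroup G) : Good p D K ζ where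
  cont x := (Gd.cont x).preimage continuous_subtype_val
  faith σ h := Subtype.ext (Gd.faith (σ : G) h)
  root := Gd.root
  prim := Gd.prim
  fix σ := Gd.fix (σ : G)
  tors σ x := Gd.tors (σ : G) x

/-- G5 (pro-p) -/
theorem Good.pp (Gd : Good p G K ζ) : PP p G := by
  intro σ N hN
  obtain ⟨X, hX⟩ := Gd.exists_finset N hN
  choose k hk using fun x : K => Gd.tors σ x
  have hmono : ∀ (x : K) (m : ℕ), k x ≤ m → σ ^ (p ^ m) • x = x := by
    intro x m hm
    obtain ⟨d, rfl⟩ := Nat.exists_eq_add_of_le hm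
    rw [pow_add, pow_mul]
    have h1 : σ ^ p ^ k x ∈ MulAction.stabilizer G x := hk x
    exact (MulAction.stabilizer G x).pow_mem h1 _
  refine ⟨X.sup k, hX _ fun x hx => hmono x _ (Finset.le_sup hx)⟩

omit [IsTopologicalGroup G] [CompactSpace G] [T2Space G] [TotallyDisconnectedSpace G] in
/-- `σ • α = ζ ^ i * α` when `α ^ p` is fixed. -/
theorem Good.exists_pow (Gd : Good p G K ζ) {x : K} (hx : x ^ p = 1) :
    ∃ i : ZMod p, ζ ^ i.val = x := by
  have hp : 0 < p := (Fact.out : p.Prime).pos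
  have : NeZero p := ⟨hp.ne'⟩
  obtain ⟨i, hi, h⟩ := Gd.prim.eq_pow_of_pow_eq_one hx
  exact ⟨(i : ZMod p), by rw [ZMod.val_natCast_of_lt hi, h]⟩

omit [IsTopologicalGroup G] [CompactSpace G] [T2Space G] [TotallyDisconnectedSpace G] in
theorem Good.pow_inj (Gd : Good p G K ζ) {i j : ZMod p} (h : ζ ^ i.val = ζ ^ j.val) : i = j := by
  have hp : 0 < p := (Fact.out : p.Prime).pos
  have : NeZero p := ⟨hp.ne'⟩
  exact ZMod.val_injective p (Gd.prim.pow_inj (ZMod.val_lt i) (ZMod.val_lt j) h)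

omit [IsTopologicalGroup G] [CompactSpace G] [T2Space G] [TotallyDisconnectedSpace G] in
theorem Good.pow_add (Gd : Good p G K ζ) (i j : ZMod p) :
    ζ ^ (i + j).val = ζ ^ i.val * ζ ^ j.val := by
  have hp : 0 < p := (Fact.out : p.Prime).pos
  have : NeZero p := ⟨hp.ne'⟩
  rw [ZMod.val_add, ← pow_eq_pow_mod _ Gd.prim.pow_eq_one, _root_.pow_add]

omit [CompactSpace G] [T2Space G] [TotallyDisconnectedSpace G] in
theorem Good.isLocConst (Gd : Good p G K ζ) {X : Type*} (f : G → X) (α : K)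
    (h : ∀ σ τ : G, σ • α = τ • α → f σ = f τ) : IsLocallyConstant f := by
  rw [IsLocallyConstant.iff_exists_open]
  intro σ
  refine ⟨{τ : G | (σ⁻¹ * τ) • α = α}, ?_, ?_, fun τ hτ => ?_⟩
  · exact (Gd.cont α).preimage (continuous_const_mul σ⁻¹)
  · simp
  · apply h
    have hτ' : (σ⁻¹ * τ) • α = α := hτ
    rw [mul_smul, inv_smul_eq_iff] at hτ'
    exact hτ'

/-- G6 (Kummer characters) -/
theorem kum_exists (Gd : Good p G K ζ) {a : K} (ha : a ∈ (Fx G : Set K)) (ha0 : a ≠ 0) :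
    ∃ χ : G → ZMod p, IsCh p χ ∧ IsKum ζ a χ := by
  have hp : p.Prime := Fact.out
  obtain ⟨α, hα⟩ := Gd.root a
  have hα0 : α ≠ 0 := by
    rintro rfl
    rw [zero_pow hp.ne_zero] at hα
    exact ha0 hα.symm
  have hex : ∀ σ : G, ∃ i : ZMod p, ζ ^ i.val = σ • α / α := by
    intro σ
    apply Gd.exists_pow
    rw [div_pow, ← smul_pow', hα, ha σ, div_self ha0]
  choose χ hχ using hex
  have hχ' : ∀ σ, σ • α = ζ ^ (χ σ).val * α := fun σ => by
    rw [hχ, div_mul_cancel₀ _ hα0]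
  refine ⟨χ, ⟨fun σ τ => ?_, ?_⟩, ?_⟩
  · apply Gd.pow_inj
    rw [Gd.pow_add, hχ, mul_smul, hχ' τ, smul_mul', smul_pow', Gd.fix, hχ' σ]
    field_simp
  · apply Gd.isLocConst χ α
    intro σ τ h
    apply Gd.pow_inj
    rw [hχ, hχ, h]
  · intro β hβ σ
    obtain ⟨j, hj⟩ := Gd.exists_pow (x := β / α) (by rw [div_pow, hα, hβ, div_self ha0])
    have e : β = ζ ^ j.val * α := by rw [hj, div_mul_cancel₀ _ hα0]
    rw [e, smul_mul', smul_pow', Gd.fix, hχ' σ]
    ring

omit [IsTopologicalGroup G] [CompactSpace G] [T2Space G] [TotallyDisconnectedSpace G] in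
/-- G7 -/
theorem kum_unique (Gd : Good p G K ζ) {a : K} (ha0 : a ≠ 0) {χ ψ : G → ZMod p}
    (h : IsKum ζ a χ) (h' : IsKum ζ a ψ) : χ = ψ := by
  have hp : p.Prime := Fact.out
  obtain ⟨α, hα⟩ := Gd.root a
  have hα0 : α ≠ 0 := by
    rintro rfl
    rw [zero_pow hp.ne_zero] at hα
    exact ha0 hα.symm
  funext σ
  apply Gd.pow_inj
  have := (h α hα σ).symm.trans (h' α hα σ)
  exact mul_right_cancel₀ hα0 this

omit [IsTopologicalGroup G] [CompactSpace G] [T2Space G] [TotallyDisconnectedSpace G] in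
/-- G8 -/
theorem kum_mul (Gd : Good p G K ζ) {a b : K} (ha0 : a ≠ 0) (hb0 : b ≠ 0) {χ ψ : G → ZMod p}
    (h : IsKum ζ a χ) (h' : IsKum ζ b ψ) : IsKum ζ (a * b) (fun σ => χ σ + ψ σ) := by
  have hp : p.Prime := Fact.out
  intro γ hγ σ
  obtain ⟨α, hα⟩ := Gd.root a
  have hα0 : α ≠ 0 := by
    rintro rfl
    rw [zero_pow hp.ne_zero] at hα
    exact ha0 hα.symm
  have hβ : (γ / α) ^ p = b := by
    rw [div_pow, hγ, hα]
    field_simp
  have e : γ = α * (γ / α) := by field_simp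
  have h1 := h α hα σ
  have h2 := h' (γ / α) hβ σ
  show σ • γ = ζ ^ (χ σ + ψ σ).val * γ
  rw [e, smul_mul', h1, h2, Gd.pow_add]
  field_simp

omit [IsTopologicalGroup G] [CompactSpace G] [T2Space G] [TotallyDisconnectedSpace G] in
/-- G9 -/
theorem kum_zero (Gd : Good p G K ζ) {a : K} (ha0 : a ≠ 0) {χ : G → ZMod p}
    (h : IsKum ζ a χ) : (∀ σ, χ σ = 0) ↔ ∃ y ∈ (Fx G : Set K), y ^ p = a := by
  have hp : p.Prime := Fact.out
  constructor
  · intro h0
    obtain ⟨α, hα⟩ := Gd.root a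
    refine ⟨α, fun σ => ?_, hα⟩
    rw [h α hα σ, h0 σ, ZMod.val_zero, pow_zero, one_mul]
  · rintro ⟨y, hy, hya⟩ σ
    have hy0 : y ≠ 0 := by
      rintro rfl
      rw [zero_pow hp.ne_zero] at hya
      exact ha0 hya.symm
    have h1 := h y hya σ
    rw [hy σ] at h1
    apply Gd.pow_inj
    rw [ZMod.val_zero, pow_zero]
    have h2 : ζ ^ (χ σ).val * y = 1 * y := by rw [one_mul]; exact h1.symm
    exact mul_right_cancel₀ hy0 h2

end Galois

end Pool.Helper37.ETC
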