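import Mathlib

set_option autoImplicit false

open Finset

namespace Pool.Agent.Helper39.ETC

theorem exists_free_sums (E : Type*) [Field E] [Infinite E] {ι : Type*} [DecidableEq ι]
    (s : Finset ι) : ∃ c : ι → E, ∀ T ⊆ s, T.Nonempty → ∑ i ∈ T, c i ≠ 0 := by
  classical
  induction s using Finset.induction_on with
  | empty =>
    refine ⟨fun _ => 0, fun T hT hne => ?_⟩
    rw [Finset.subset_empty.1 hT] at hne
    exact absurd hne (by simp)
  | insert a s ha ih =>
    obtain ⟨c, hc⟩ := ih
    obtain ⟨x, hx⟩ := Infinite.exists_notMem_finset (s.powerset.image (fun T => -∑ i ∈ T, c i))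
    refine ⟨Function.update c a x, fun T hT hne => ?_⟩
    by_cases haT : a ∈ T
    · have h1 : ∑ i ∈ T, Function.update c a x i = x + ∑ i ∈ T.erase a, c i := by
        rw [← Finset.add_sum_erase T _ haT]
        congr 1
        · simp
        · apply Finset.sum_congr rfl
          intro i hi
          rw [Function.update_of_ne (Finset.ne_of_mem_erase hi)]
      rw [h1]
      intro h0
      apply hx
      rw [Finset.mem_image]
      refine ⟨T.erase a, ?_, by linear_combination -h0⟩
      rw [Finset.mem_powerset]
      intro i hi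
      have := hT (Finset.mem_of_mem_erase hi)
      rcases Finset.mem_insert.1 this with h | h
      · exact absurd h (Finset.ne_of_mem_erase hi)
      · exact h
    · have hTs : T ⊆ s := by
        intro i hi
        rcases Finset.mem_insert.1 (hT hi) with h | h
        · rw [h] at hi; exact absurd hi haT
        · exact h
      have h1 : ∑ i ∈ T, Function.update c a x i = ∑ i ∈ T, c i := by
        apply Finset.sum_congr rfl
        intro i hi
        rw [Function.update_of_ne (by rintro rfl; exact haT hi)]
      rw [h1]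
      exact hc T hTs hne

/-- Hales-Jewett in an infinite field. -/
theorem hj (E : Type*) [Field E] [Infinite E] {κ : Type*} [Finite κ] (C : E → κ)
    (A : Finset E) : ∃ s L : E, s ≠ 0 ∧ L ≠ 0 ∧ ∀ a ∈ A, s + L * a ≠ 0 ∧ C (s + L * a) = C s := by
  classical
  set A' : Finset E := insert 0 (insert 1 A) with hA'
  obtain ⟨ι, _, hι⟩ := Combinatorics.Line.exists_mono_in_high_dimension A' (κ × Prop)
  obtain ⟨c, hc⟩ := exists_free_sums E (Finset.univ : Finset ι)
  obtain ⟨l, ⟨k, P⟩, hl⟩ := hι fun w => (C (∑ i, c i * (w i : E)), (∑ i, c i * (w i : E)) = 0)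
  set T : Finset ι := Finset.univ.filter (fun i => l.idxFun i = none) with hT
  set L : E := ∑ i ∈ T, c i with hL
  have hL0 : L ≠ 0 := hc T (Finset.subset_univ _) ⟨l.proper.choose, by
    rw [hT, Finset.mem_filter]; exact ⟨Finset.mem_univ _, l.proper.choose_spec⟩⟩
  have h0 : (0 : E) ∈ A' := by simp [hA']
  have h1 : (1 : E) ∈ A' := by simp [hA']
  set s : E := ∑ i ∈ Tᶜ, c i * (((l.idxFun i).getD ⟨0, h0⟩ : A') : E) with hs
  have hsum : ∀ x : A', ∑ i, c i * ((l x i : A') : E) = s + L * x := by
    intro x
    rw [← Finset.sum_add_sum_compl T, add_comm]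
    congr 1
    · apply Finset.sum_congr rfl
      intro i hi
      rw [Finset.mem_compl, hT, Finset.mem_filter, not_and] at hi
      have hi' := hi (Finset.mem_univ _)
      obtain ⟨b, hb⟩ := Option.ne_none_iff_exists'.1 hi'
      rw [l.apply_some hb, hb]
      rfl
    · rw [hL, Finset.sum_mul]
      apply Finset.sum_congr rfl
      intro i hi
      rw [hT, Finset.mem_filter] at hi
      rw [l.apply_none _ _ hi.2]
  have hl' : ∀ x : A', C (s + L * x) = k ∧ ((s + L * (x : E) = 0) = P) := by
    intro x
    have := hl x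
    simp only [hsum, Prod.mk.injEq] at this
    exact this
  have e0 := hl' ⟨0, h0⟩
  have e1 := hl' ⟨1, h1⟩
  simp only [mul_zero, add_zero, mul_one] at e0 e1
  have hs0 : s ≠ 0 := by
    intro hs0
    have : s + L = 0 := by
      rw [e1.2, ← e0.2]; exact hs0
    rw [hs0, zero_add] at this
    exact hL0 this
  refine ⟨s, L, hs0, hL0, fun a ha => ?_⟩
  have ha' : a ∈ A' := by simp [hA', ha]
  have ea := hl' ⟨a, ha'⟩
  refine ⟨?_, by rw [ea.1, e0.1]⟩
  intro h
  apply hs0
  rw [e0.2, ← ea.2]
  exact h

end Pool.Agent.Helper39.ETC
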