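import Pool.Agent.Helper39.ETC.Sym
import Pool.Agent.Helper39.ETC.HJ

set_option autoImplicit false

namespace Pool.Agent.Helper39.ETC

theorem pigeon {κ α : Type*} [Finite κ] (P : κ → Finset α → Prop)
    (anti : ∀ c A A', A ⊆ A' → P c A' → P c A) (h : ∀ A, ∃ c, P c A) : ∃ c, ∀ A, P c A := by
  classical
  have := Fintype.ofFinite κ
  by_contra hcon
  push Not at hcon
  choose A hA using hcon
  obtain ⟨c, hc⟩ := h (Finset.univ.biUnion A)
  exact hA c (anti c _ _ (Finset.subset_biUnion_of_mem A (Finset.mem_univ c)) hc)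

variable {p : ℕ} [Fact p.Prime] {E : Type*} [Field E]
  {V : Type*} [AddCommGroup V] [Module (ZMod p) V]

/-- The span of the `f (1 + k z)`. -/
def L (p : ℕ) [Fact p.Prime] {V : Type*} [AddCommGroup V] [Module (ZMod p) V]
    (f : E → V) (z : E) (A : Finset E) : Submodule (ZMod p) V :=
  Submodule.span (ZMod p) {v | ∃ k ∈ A, 1 + k * z ≠ 0 ∧ f (1 + k * z) = v}

theorem L_mono (f : E → V) (z : E) {A A' : Finset E} (h : A ⊆ A') : L p f z A ≤ L p f z A' := by
  apply Submodule.span_mono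
  rintro v ⟨k, hk, h1, h2⟩
  exact ⟨k, h hk, h1, h2⟩

theorem mem_L {f : E → V} {z : E} {A : Finset E} {k : E} (hk : k ∈ A) (h1 : 1 + k * z ≠ 0) :
    f (1 + k * z) ∈ L p f z A := Submodule.subset_span ⟨k, hk, h1, rfl⟩

namespace IsSymb

variable {f : E → V} {B : V →ₗ[ZMod p] V →ₗ[ZMod p] ZMod p}

/-- Small elements of any class. -/
theorem exists_small (h : IsSymb f B) [Infinite E] [Finite V] (A : Finset E) (v : V) :
    ∃ y, y ≠ 0 ∧ f y = v ∧ ∀ a ∈ A, 1 + a * y ≠ 0 ∧ f (1 + a * y) = 0 := by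
  classical
  obtain ⟨c, hc⟩ := pigeon (κ := V) (α := E)
    (fun c A => ∃ ξ, ξ ≠ 0 ∧ f ξ = c ∧ ∀ a ∈ A, ξ + a ≠ 0 ∧ f (ξ + a) = c)
    (by
      rintro c A A' hA ⟨ξ, h1, h2, h3⟩
      exact ⟨ξ, h1, h2, fun a ha => h3 a (hA ha)⟩)
    (by
      intro A
      obtain ⟨s, l, hs, hl, hsl⟩ := hj E f A
      refine ⟨f (s / l), s / l, div_ne_zero hs hl, rfl, fun a ha => ?_⟩
      obtain ⟨h1, h2⟩ := hsl a ha
      have e : s / l + a = (s + l * a) / l := by field_simp
      rw [e]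
      refine ⟨div_ne_zero h1 hl, ?_⟩
      rw [h.div h1 hl, h.div hs hl, h2])
  have main : ∀ A : Finset E, ∃ y, y ≠ 0 ∧ f y = 0 ∧ ∀ a ∈ A, 1 + a * y ≠ 0 ∧ f (1 + a * y) = 0 := by
    intro A
    obtain ⟨x1, h1, h2, -⟩ := hc ∅
    obtain ⟨x2, h3, h4, h5⟩ := hc (A.image (fun a => a * x1))
    refine ⟨x1 / x2, div_ne_zero h1 h3, by rw [h.div h1 h3, h2, h4, sub_self], fun a ha => ?_⟩
    obtain ⟨h6, h7⟩ := h5 (a * x1) (Finset.mem_image_of_mem _ ha)
    have e : 1 + a * (x1 / x2) = (x2 + a * x1) / x2 := by field_simp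
    rw [e]
    refine ⟨div_ne_zero h6 h3, ?_⟩
    rw [h.div h6 h3, h7, h4, sub_self]
  obtain ⟨k, hk, rfl⟩ := h.surj v
  obtain ⟨y, h1, h2, h3⟩ := main (A.image (fun a => a * k))
  refine ⟨k * y, mul_ne_zero hk h1, by rw [h.mul k y hk h1, h2, add_zero], fun a ha => ?_⟩
  have := h3 (a * k) (Finset.mem_image_of_mem _ ha)
  rw [mul_assoc] at this
  exact this

/-- Three term relation. -/
theorem three (h : IsSymb f B) {a b c : E} (ha : a ≠ 0) (hb : b ≠ 0) (hc : c ≠ 0)
    (e : a = b + c) : B (f b - f a) (f c - f a) = 0 := by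
  have h1 : 1 - b / a = c / a := by field_simp; rw [e]; ring
  have := h.st (b / a) (div_ne_zero hb ha) (by rw [h1]; exact div_ne_zero hc ha)
  rw [h1, h.div hb ha, h.div hc ha] at this
  exact this

theorem five (h : IsSymb f B) {z m : E} {K : Finset E}
    (hm : ∀ k ∈ K, 1 - k * m ≠ 0 ∧ f (1 - k * m) = 0) (hL : L p f z K ≠ ⊥) :
    z + m ≠ 0 ∧ ∀ v ∈ L p f z K, B (f (1 + m / z)) v = 0 := by
  have hz : z ≠ 0 := by
    rintro rfl
    apply hL
    rw [L, Submodule.span_eq_bot]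
    rintro v ⟨k, -, -, h2⟩
    rw [mul_zero, add_zero, h.one] at h2
    exact h2.symm
  have hzm : z + m ≠ 0 := by
    intro h0
    apply hL
    rw [L, Submodule.span_eq_bot]
    rintro v ⟨k, hk, -, h2⟩
    rw [← h2, show 1 + k * z = 1 - k * m by linear_combination k * h0]
    exact (hm k hk).2
  refine ⟨hzm, fun v hv => ?_⟩
  have e1 : f (1 + m / z) = f (z + m) - f z := by
    rw [← h.div hzm hz]; congr 1; field_simp
  rw [e1]
  induction hv using Submodule.span_induction with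
  | mem v hv =>
    obtain ⟨k, hk, h1, rfl⟩ := hv
    by_cases hk0 : k = 0
    · subst hk0
      rw [zero_mul, add_zero, h.one, map_zero]
    have hk1 : z + k⁻¹ ≠ 0 := by
      intro h0; apply h1
      have : k * (z + k⁻¹) = 0 := by rw [h0, mul_zero]
      rw [mul_add, mul_inv_cancel₀ hk0] at this
      linear_combination this
    obtain ⟨hm1, hm2⟩ := hm k hk
    have e2 : k⁻¹ - m = k⁻¹ * (1 - k * m) := by field_simp
    have e3 : z + k⁻¹ = k⁻¹ * (1 + k * z) := by field_simp; ring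
    have hk2 : k⁻¹ - m ≠ 0 := by rw [e2]; exact mul_ne_zero (inv_ne_zero hk0) hm1
    have f2 : f (k⁻¹ - m) = f k⁻¹ := by
      rw [e2, h.mul _ _ (inv_ne_zero hk0) hm1, hm2, add_zero]
    have f3 : f (z + k⁻¹) = f k⁻¹ + f (1 + k * z) := by
      rw [e3, h.mul _ _ (inv_ne_zero hk0) h1]
    have t1 := h.three hk1 hzm hk2 (by ring)
    have t2 := h.three hk1 hz (inv_ne_zero hk0) rfl
    rw [f2, f3] at t1
    rw [f3] at t2
    simp only [map_sub, map_add, LinearMap.sub_apply, LinearMap.add_apply] at t1 t2 ⊢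
    linear_combination t2 - t1
  | zero => rw [map_zero]
  | add u v _ _ hu hv => rw [map_add, hu, hv, add_zero]
  | smul a v _ hv => rw [map_smul, hv, smul_zero]

end IsSymb

/-- Irreducibility of a symbol. -/
def Irr (p : ℕ) [Fact p.Prime] {V : Type*} [AddCommGroup V] [Module (ZMod p) V]
    (f : E → V) : Prop :=
  ∀ A : Finset E, ∃ A' : Finset E, ∀ z, L p f z A ≠ ⊥ → L p f z A' = ⊤

namespace IsSymb

variable {f : E → V} {B : V →ₗ[ZMod p] V →ₗ[ZMod p] ZMod p}

/-- Irreducible symbols give V-topologies. -/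
theorem vtop (h : IsSymb f B) (hirr : Irr p f) (A : Finset E) :
    ∃ A' : Finset E, ∀ x y, (∀ a ∈ A', 1 + a * (x * y) ≠ 0 ∧ f (1 + a * (x * y)) = 0) →
      (∀ a ∈ A, 1 + a * x ≠ 0 ∧ f (1 + a * x) = 0) ∨
      (∀ a ∈ A, 1 + a * y ≠ 0 ∧ f (1 + a * y) = 0) := by
  classical
  obtain ⟨A1, hA1⟩ := hirr A
  refine ⟨(A1 ×ˢ A).image (fun t => -(t.1 * t.2)) ∪ (A ×ˢ A).image (fun t => -(t.1 * t.2)),
    fun x y hxy => ?_⟩
  by_cases hy : ∀ a ∈ A, 1 + a * y ≠ 0 ∧ f (1 + a * y) = 0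
  · exact Or.inr hy
  left
  push Not at hy
  obtain ⟨a0, ha0, hy0⟩ := hy
  intro a ha
  by_cases h0 : 1 + a0 * y = 0
  · have := hxy (-(a0 * a)) (by
      apply Finset.mem_union_right
      exact Finset.mem_image.2 ⟨(a0, a), Finset.mem_product.2 ⟨ha0, ha⟩, rfl⟩)
    have e : 1 + -(a0 * a) * (x * y) = 1 + a * x := by linear_combination (-a * x) * h0
    rw [e] at this
    exact this
  · have hLA : L p f y A ≠ ⊥ := by
      intro hbot
      apply hy0 h0
      have := mem_L (p := p) (f := f) ha0 h0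
      rw [hbot] at this
      exact (Submodule.mem_bot _).1 this
    have htop := hA1 y hLA
    have hy1 : y ≠ 0 := by
      rintro rfl
      apply hy0 h0
      rw [mul_zero, add_zero, h.one]
    have h5 := h.five (z := y) (m := a * (x * y)) (K := A1) (by
      intro k hk
      have := hxy (-(k * a)) (by
        apply Finset.mem_union_left
        exact Finset.mem_image.2 ⟨(k, a), Finset.mem_product.2 ⟨hk, ha⟩, rfl⟩)
      have e : 1 + -(k * a) * (x * y) = 1 - k * (a * (x * y)) := by ring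
      rw [e] at this
      exact this) (by
        rw [htop]
        intro hbot
        apply hLA
        rw [eq_bot_iff, ← hbot]
        exact le_top)
    have e2 : 1 + a * (x * y) / y = 1 + a * x := by field_simp
    have e3 : y + a * (x * y) = y * (1 + a * x) := by ring
    rw [e2, e3] at h5
    refine ⟨right_ne_zero_of_mul h5.1, h.nondeg _ fun u => h5.2 u (by rw [htop]; trivial)⟩

/-- Splitting of reducible symbols. -/
theorem split (h : IsSymb f B) [Infinite E] [Finite V] (hirr : ¬ Irr p f) :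
    ∃ V1 : Submodule (ZMod p) V, V1 ≠ ⊥ ∧ V1 ≠ ⊤ ∧
      IsCompl V1 (LinearMap.BilinForm.orthogonal B V1) ∧
      ∀ Z : Finset E, ∃ c, c ≠ 0 ∧ ∀ z ∈ Z, (1 + z * c ≠ 0 ∧ f (1 + z * c) ∈ V1) ∧
        (1 + z / c ≠ 0 ∧ f (1 + z / c) ∈ LinearMap.BilinForm.orthogonal B V1) := by
  classical
  rw [Irr] at hirr
  push Not at hirr
  obtain ⟨A, hA⟩ := hirr
  have : Finite (Submodule (ZMod p) V) := by
    exact Finite.of_injective (fun W => (W : Set V)) SetLike.coe_injective
  let 𝒱 : Set (Submodule (ZMod p) V) := {W | ∃ B1 : Finset E, ∀ C : Finset E, ∃ z,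
    W ≤ L p f z B1 ∧ L p f z A ≠ ⊥ ∧ L p f z C ≠ ⊤}
  -- a nonzero member
  obtain ⟨W0, hW0⟩ := pigeon (κ := Submodule (ZMod p) V) (α := E)
    (fun W C => W ≠ ⊥ ∧ ∃ z, L p f z A = W ∧ L p f z C ≠ ⊤)
    (by
      rintro W C C' hC ⟨h1, z, h2, h3⟩
      refine ⟨h1, z, h2, fun h4 => h3 ?_⟩
      exact top_le_iff.1 (h4 ▸ L_mono f z hC))
    (by
      intro C
      obtain ⟨z, h1, h2⟩ := hA C
      exact ⟨L p f z A, h1, z, rfl, h2⟩)
  have hW0ne : W0 ≠ ⊥ := (hW0 ∅).1
  have hW0mem : W0 ∈ 𝒱 := ⟨A, fun C => by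
    obtain ⟨h1, z, h2, h3⟩ := hW0 C
    exact ⟨z, h2.ge, by rw [h2]; exact h1, h3⟩⟩
  obtain ⟨V1, hV01, hV1max⟩ := (Set.toFinite 𝒱).exists_le_maximal hW0mem
  obtain ⟨B1, hB1⟩ := hV1max.prop
  have hV1bot : V1 ≠ ⊥ := by
    rintro rfl
    exact hW0ne (le_bot_iff.1 hV01)
  have hV1top : V1 ≠ ⊤ := by
    rintro rfl
    obtain ⟨z, h1, -, h2⟩ := hB1 B1
    exact h2 (top_le_iff.1 h1)
  -- good z
  have good : ∀ C : Finset E, ∃ z, L p f z B1 = V1 ∧ L p f z (C ∪ B1) = V1 := by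
    intro C0
    by_contra hcon
    push Not at hcon
    have hcon' : ∀ z, V1 ≤ L p f z B1 → L p f z (C0 ∪ B1) ≠ V1 := by
      intro z hz h1
      refine hcon z ?_ h1
      exact le_antisymm (h1 ▸ L_mono f z Finset.subset_union_right) hz
    obtain ⟨W, hW⟩ := pigeon (κ := Submodule (ZMod p) V) (α := E)
      (fun W C => V1 < W ∧ ∃ z, L p f z (C0 ∪ B1) = W ∧ L p f z A ≠ ⊥ ∧ L p f z C ≠ ⊤)
      (by
        rintro W C C' hC ⟨h1, z, h2, h3, h4⟩
        refine ⟨h1, z, h2, h3, fun h5 => h4 ?_⟩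
        exact top_le_iff.1 (h5 ▸ L_mono f z hC))
      (by
        intro C
        obtain ⟨z, h1, h2, h3⟩ := hB1 C
        refine ⟨L p f z (C0 ∪ B1), lt_of_le_of_ne ?_ (hcon' z h1).symm, z, rfl, h2, h3⟩
        exact h1.trans (L_mono f z Finset.subset_union_right))
    have hWmem : W ∈ 𝒱 := ⟨C0 ∪ B1, fun C => by
      obtain ⟨h1, z, h2, h3, h4⟩ := hW C
      exact ⟨z, h2.ge, h3, h4⟩⟩
    have := (hW ∅).1
    exact absurd (hV1max.le_of_ge hWmem this.le) (not_le_of_gt this)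
  have hrefl : LinearMap.BilinForm.IsRefl B := by
    intro u v huv
    rw [h.antisymm, huv, neg_zero]
  -- key construction
  have cons : ∀ Y : Finset E, (∀ y ∈ Y, y ≠ 0 ∧ ∀ k ∈ B1, 1 - k * y ≠ 0 ∧ f (1 - k * y) = 0) →
      ∃ z, z ≠ 0 ∧ ∀ y ∈ Y, (1 + z / y ≠ 0 ∧ f (1 + z / y) ∈ V1) ∧
        (1 + y / z ≠ 0 ∧ f (1 + y / z) ∈ LinearMap.BilinForm.orthogonal B V1) := by
    intro Y hY
    obtain ⟨z, hz1, hz2⟩ := good (Y.image (fun y => y⁻¹))
    have hz0 : z ≠ 0 := by
      rintro rfl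
      apply hV1bot
      rw [← hz1, L, Submodule.span_eq_bot]
      rintro v ⟨k, -, -, h2⟩
      rw [mul_zero, add_zero, h.one] at h2
      exact h2.symm
    refine ⟨z, hz0, fun y hy => ?_⟩
    obtain ⟨hy0, hy1⟩ := hY y hy
    obtain ⟨h5, h6⟩ := h.five (z := z) (m := y) (K := B1) hy1 (by rw [hz1]; exact hV1bot)
    have hne : 1 + z / y ≠ 0 := by
      intro h0; apply h5
      field_simp at h0
      linear_combination h0
    have hne2 : 1 + y / z ≠ 0 := by
      intro h0; apply h5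
      field_simp at h0
      linear_combination h0
    refine ⟨⟨hne, ?_⟩, hne2, ?_⟩
    · rw [← hz2]
      have e : 1 + z / y = 1 + y⁻¹ * z := by rw [div_eq_mul_inv]; ring
      rw [e] at hne ⊢
      exact mem_L (Finset.mem_union_left _ (Finset.mem_image_of_mem _ hy)) hne
    · rw [LinearMap.BilinForm.mem_orthogonal_iff]
      intro v hv
      apply hrefl
      apply h6
      rw [hz1]; exact hv
  -- the sum is everything
  have hsum : V1 ⊔ LinearMap.BilinForm.orthogonal B V1 = ⊤ := by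
    have := Fintype.ofFinite V
    have : ∀ v : V, ∃ y, y ≠ 0 ∧ f y = v ∧ ∀ k ∈ B1, 1 - k * y ≠ 0 ∧ f (1 - k * y) = 0 := by
      intro v
      obtain ⟨y, h1, h2, h3⟩ := h.exists_small (B1.image (fun k => -k)) v
      refine ⟨y, h1, h2, fun k hk => ?_⟩
      have := h3 (-k) (Finset.mem_image_of_mem _ hk)
      rw [show 1 + -k * y = 1 - k * y by ring] at this
      exact this
    choose y hy0 hy1 hy2 using this
    obtain ⟨z, hz0, hz⟩ := cons (Finset.univ.image y) (by
      intro t ht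
      obtain ⟨v, -, rfl⟩ := Finset.mem_image.1 ht
      exact ⟨hy0 v, hy2 v⟩)
    have hmem : ∀ v : V, f z - v ∈ V1 ⊔ LinearMap.BilinForm.orthogonal B V1 := by
      intro v
      obtain ⟨⟨h1, h2⟩, h3, h4⟩ := hz (y v) (Finset.mem_image_of_mem _ (Finset.mem_univ v))
      have e : 1 + z / y v = (z / y v) * (1 + y v / z) := by
        have := hy0 v
        field_simp
        ring
      have e2 : f z - v = f (1 + z / y v) - f (1 + y v / z) := by
        rw [e, h.mul _ _ (div_ne_zero hz0 (hy0 v)) h3, h.div hz0 (hy0 v), hy1]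
        abel
      rw [e2]
      exact Submodule.sub_mem _ (Submodule.mem_sup_left h2) (Submodule.mem_sup_right h4)
    rw [eq_top_iff]
    intro v _
    have := Submodule.sub_mem _ (hmem 0) (hmem v)
    rw [show f z - 0 - (f z - v) = v by abel] at this
    exact this
  have hnd : LinearMap.BilinForm.Nondegenerate B := by
    constructor
    · intro v hv
      exact h.nondeg v hv
    · intro v hv
      apply h.nondeg v
      intro u
      rw [h.antisymm, hv u, neg_zero]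
  have : FiniteDimensional (ZMod p) V := Module.Finite.of_finite
  have hcompl : IsCompl V1 (LinearMap.BilinForm.orthogonal B V1) := by
    refine ⟨?_, codisjoint_iff.2 hsum⟩
    have h1 := LinearMap.BilinForm.finrank_orthogonal hnd V1
    have h2 := Submodule.finrank_sup_add_finrank_inf_eq V1 (LinearMap.BilinForm.orthogonal B V1)
    rw [hsum, finrank_top] at h2
    have h3 := Submodule.finrank_le V1
    have h4 : Module.finrank (ZMod p) (V1 ⊓ LinearMap.BilinForm.orthogonal B V1 :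
      Submodule (ZMod p) V) = 0 := by omega
    rw [disjoint_iff]
    exact Submodule.finrank_eq_zero.1 h4
  refine ⟨V1, hV1bot, hV1top, hcompl, fun Z => ?_⟩
  -- choose y0
  set Z' : Finset E := insert 1 (Z ∪ Z.image (fun z => z⁻¹)) with hZ'
  obtain ⟨y0, hy0, -, hy1⟩ := h.exists_small ((B1 ×ˢ Z').image (fun t => -(t.1 * t.2))) 0
  obtain ⟨z, hz0, hz⟩ := cons ((Z'.erase 0).image (fun k => k * y0)) (by
    intro t ht
    obtain ⟨k, hk, rfl⟩ := Finset.mem_image.1 ht
    obtain ⟨hk0, hk1⟩ := Finset.mem_erase.1 hk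
    refine ⟨mul_ne_zero hk0 hy0, fun b hb => ?_⟩
    have := hy1 (-(b * k)) (Finset.mem_image.2 ⟨(b, k), Finset.mem_product.2 ⟨hb, hk1⟩, rfl⟩)
    rw [show 1 + -(b * k) * y0 = 1 - b * (k * y0) by ring] at this
    exact this)
  refine ⟨z / y0, div_ne_zero hz0 hy0, fun k hk => ?_⟩
  by_cases hk0 : k = 0
  · subst hk0
    rw [zero_mul, zero_div, add_zero, h.one]
    exact ⟨⟨one_ne_zero, Submodule.zero_mem _⟩, one_ne_zero, Submodule.zero_mem _⟩
  constructor
  · have := (hz (k⁻¹ * y0) (Finset.mem_image.2 ⟨k⁻¹, Finset.mem_erase.2 ⟨inv_ne_zero hk0, by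
      rw [hZ']
      apply Finset.mem_insert_of_mem
      apply Finset.mem_union_right
      exact Finset.mem_image_of_mem _ hk⟩, rfl⟩)).1
    have e : 1 + z / (k⁻¹ * y0) = 1 + k * (z / y0) := by field_simp
    rw [e] at this
    exact this
  · have := (hz (k * y0) (Finset.mem_image.2 ⟨k, Finset.mem_erase.2 ⟨hk0, by
      rw [hZ']
      apply Finset.mem_insert_of_mem
      apply Finset.mem_union_left
      exact hk⟩, rfl⟩)).2
    have e : 1 + k * y0 / z = 1 + k / (z / y0) := by field_simp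
    rw [e] at this
    exact this

end IsSymb

end Pool.Agent.Helper39.ETC
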