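import Mathlib

set_option autoImplicit false

namespace Pool.Agent.Helper39.ETC

variable {p : ℕ} [Fact p.Prime] {E : Type*} [Field E]
  {V : Type*} [AddCommGroup V] [Module (ZMod p) V]

/-- A Steinberg symbol on `Eˣ` of finite rank: `w(x,y) = B (f x) (f y)`. -/
structure IsSymb (f : E → V) (B : V →ₗ[ZMod p] V →ₗ[ZMod p] ZMod p) : Prop where
  mul : ∀ x y, x ≠ 0 → y ≠ 0 → f (x * y) = f x + f y
  surj : ∀ v, ∃ x, x ≠ 0 ∧ f x = v
  nondeg : ∀ v, (∀ u, B v u = 0) → v = 0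
  st : ∀ x, x ≠ 0 → 1 - x ≠ 0 → B (f x) (f (1 - x)) = 0

/-- The neighbourhood of zero attached to a set. -/
def N (f : E → V) (Z : Set E) : Set E := {y | ∀ z ∈ Z, 1 + z * y ≠ 0 ∧ f (1 + z * y) = 0}

namespace IsSymb

variable {f : E → V} {B : V →ₗ[ZMod p] V →ₗ[ZMod p] ZMod p}

theorem one (h : IsSymb f B) : f 1 = 0 := by
  have := h.mul 1 1 one_ne_zero one_ne_zero
  simpa using this

theorem inv (h : IsSymb f B) {x : E} (hx : x ≠ 0) : f x⁻¹ = - f x := by
  have := h.mul x x⁻¹ hx (inv_ne_zero hx)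
  rw [mul_inv_cancel₀ hx, h.one] at this
  exact (neg_eq_of_add_eq_zero_right this.symm).symm

theorem div (h : IsSymb f B) {x y : E} (hx : x ≠ 0) (hy : y ≠ 0) : f (x / y) = f x - f y := by
  rw [div_eq_mul_inv, h.mul x _ hx (inv_ne_zero hy), h.inv hy, sub_eq_add_neg]

theorem neg_self (h : IsSymb f B) {x : E} (hx : x ≠ 0) : B (f x) (f (-x)) = 0 := by
  by_cases h1 : 1 - x = 0
  · have : x = 1 := by linear_combination -h1
    subst this
    rw [h.one]; simp
  · have hx1 : 1 - x⁻¹ ≠ 0 := by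
      intro h2
      apply h1
      field_simp at h2
      linear_combination -h2
    have e : -x = (1 - x) / (1 - x⁻¹) := by
      field_simp
      have : x - 1 ≠ 0 := by intro h3; apply h1; linear_combination -h3
      rw [eq_div_iff this]
      ring
    rw [e, h.div h1 hx1, map_sub, h.st x hx h1, zero_sub]
    have := h.st x⁻¹ (inv_ne_zero hx) hx1
    rw [h.inv hx, map_neg, LinearMap.neg_apply] at this
    exact this

theorem antisymm' (h : IsSymb f B) {x y : E} (hx : x ≠ 0) (hy : y ≠ 0) :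
    B (f x) (f y) = - B (f y) (f x) := by
  have h1 := h.neg_self (mul_ne_zero hx hy)
  rw [show -(x * y) = x * (-y) by ring, h.mul x (-y) hx (neg_ne_zero.2 hy)] at h1
  rw [h.mul x y hx hy] at h1
  simp only [map_add, LinearMap.add_apply] at h1
  have h2 := h.neg_self hy
  have h3 : B (f x) (f x) + B (f x) (f (-y)) = B (f x) (f y) := by
    rw [← map_add, ← h.mul x (-y) hx (neg_ne_zero.2 hy), show x * (-y) = (-x) * y by ring,
      h.mul (-x) y (neg_ne_zero.2 hx) hy, map_add, h.neg_self hx, zero_add]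
  linear_combination h1 - h2 - h3

theorem antisymm (h : IsSymb f B) (u v : V) : B u v = - B v u := by
  obtain ⟨x, hx, rfl⟩ := h.surj u
  obtain ⟨y, hy, rfl⟩ := h.surj v
  exact h.antisymm' hx hy

theorem nondeg' (h : IsSymb f B) (v : V) (hv : ∀ x, x ≠ 0 → B v (f x) = 0) : v = 0 := by
  apply h.nondeg
  intro u
  obtain ⟨x, hx, rfl⟩ := h.surj u
  exact hv x hx

/-- The key relation. -/
theorem key (h : IsSymb f B) {A k b : E} (hA : A ≠ 0) (hb : b ≠ 0) (hk : k ≠ 0)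
    (hk0 : f k = 0) (e : A = k + b) : B (f A) (f (-b)) = 0 := by
  have h1 : 1 - k / A = b / A := by
    field_simp
    rw [e]; ring
  have h2 := h.st (k / A) (div_ne_zero hk hA) (by rw [h1]; exact div_ne_zero hb hA)
  rw [h1, h.div hk hA, h.div hb hA, hk0, zero_sub] at h2
  simp only [map_neg, LinearMap.neg_apply, map_sub, neg_sub] at h2
  -- h2 : B (f A) (f A) - B (f A) (f b) = 0
  have h3 := h.neg_self hA
  have h4 : f (-b) = f b + f (-1) := by
    rw [show -b = b * (-1) by ring, h.mul b (-1) hb (neg_ne_zero.2 one_ne_zero)]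
  have h5 : f (-A) = f A + f (-1) := by
    rw [show -A = A * (-1) by ring, h.mul A (-1) hA (neg_ne_zero.2 one_ne_zero)]
  rw [h4, map_add]
  rw [h5, map_add] at h3
  linear_combination h3 - h2

/-- (ADD) -/
theorem add_mem [Nontrivial V] (h : IsSymb f B) {S : Set E} (hS : ∀ v, ∃ s ∈ S, s ≠ 0 ∧ f s = v)
    {u1 u2 : E}
    (h1 : ∀ s ∈ S, 1 + (1 - s) * u1 ≠ 0 ∧ f (1 + (1 - s) * u1) = 0)
    (h2 : ∀ s ∈ S, 1 + (s⁻¹ - 1) * u2 ≠ 0 ∧ f (1 + (s⁻¹ - 1) * u2) = 0) :
    1 + u1 - u2 ≠ 0 ∧ f (1 + u1 - u2) = 0 := by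
  have hA : 1 + u1 - u2 ≠ 0 := by
    intro hA
    have : ∀ v : V, v = 0 := by
      intro v
      obtain ⟨s, hs, hs0, rfl⟩ := hS v
      obtain ⟨a1, b1⟩ := h1 s hs
      obtain ⟨a2, b2⟩ := h2 s hs
      have e1 : 1 + (1 - s) * u1 = s * (1 + (s⁻¹ - 1) * u2) := by
        field_simp
        linear_combination (1 - s) * hA
      rw [e1, h.mul s _ hs0 a2, b2, add_zero] at b1
      exact b1
    obtain ⟨v, hv⟩ := exists_ne (0 : V)
    exact hv (this v)
  refine ⟨hA, ?_⟩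
  by_cases hex : ∃ s ∈ S, s ≠ 0 ∧ s * u1 = u2
  · obtain ⟨s, hs, -, e⟩ := hex
    have := (h1 s hs).2
    rw [show 1 + u1 - u2 = 1 + (1 - s) * u1 by rw [← e]; ring]
    exact this
  push_neg at hex
  apply h.nondeg'
  intro x hx
  obtain ⟨s, hs, hs0, hsx⟩ := hS (f x)
  rw [← hsx]
  have hne : u2 - s * u1 ≠ 0 := fun h0 => hex s hs hs0 (by linear_combination -h0)
  have hne2 : s⁻¹ * u2 - u1 ≠ 0 := by
    intro h0; apply hne
    field_simp at h0
    linear_combination h0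
  obtain ⟨a1, b1⟩ := h1 s hs
  obtain ⟨a2, b2⟩ := h2 s hs
  have c1 := h.key (A := 1 + u1 - u2) (k := 1 + (1 - s) * u1) (b := -(u2 - s * u1)) hA
    (neg_ne_zero.2 hne) a1 b1 (by ring)
  have c2 := h.key (A := 1 + u1 - u2) (k := 1 + (s⁻¹ - 1) * u2) (b := -(s⁻¹ * u2 - u1)) hA
    (neg_ne_zero.2 hne2) a2 b2 (by ring)
  rw [neg_neg] at c1 c2
  rw [show u2 - s * u1 = s * (s⁻¹ * u2 - u1) by field_simp, h.mul s _ hs0 hne2, map_add, c2,
    add_zero] at c1
  exact c1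

/-- (MUL) -/
theorem mul_mem [Nontrivial V] (h : IsSymb f B) {S : Set E} (hS : ∀ v, ∃ s ∈ S, s ≠ 0 ∧ f s = v)
    {u y : E}
    (h1 : ∀ s ∈ S, 1 + s * u ≠ 0 ∧ f (1 + s * u) = 0)
    (h2 : ∀ s ∈ S, 1 - s⁻¹ * y ≠ 0 ∧ f (1 - s⁻¹ * y) = 0) :
    1 + u * y ≠ 0 ∧ f (1 + u * y) = 0 := by
  by_cases hu : u = 0
  · subst hu; simp [h.one]
  have hA : 1 + u * y ≠ 0 := by
    intro hA
    have : ∀ v : V, f u + v = 0 := by
      intro v
      obtain ⟨s, hs, hs0, rfl⟩ := hS v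
      obtain ⟨a1, b1⟩ := h1 s hs
      obtain ⟨a2, b2⟩ := h2 s hs
      have e1 : 1 + s * u = u * s * (1 - s⁻¹ * y) := by
        field_simp
        linear_combination hA
      rw [e1, h.mul _ _ (mul_ne_zero hu hs0) a2, h.mul _ _ hu hs0, b2, add_zero] at b1
      exact b1
    obtain ⟨v, hv⟩ := exists_ne (0 : V)
    apply hv
    have t1 := this v
    have t2 := this 0
    rw [add_zero] at t2
    rw [t2, zero_add] at t1
    exact t1
  refine ⟨hA, ?_⟩
  have main : ∀ v : V, B (f (1 + u * y)) (f u + v) = 0 := by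
    intro v
    obtain ⟨s, hs, hs0, rfl⟩ := hS v
    obtain ⟨a1, b1⟩ := h1 s hs
    obtain ⟨a2, b2⟩ := h2 s hs
    have e1 : -(u * (y - s)) = u * s * (1 - s⁻¹ * y) := by field_simp; ring
    have c1 := h.key (A := 1 + u * y) (k := 1 + s * u) (b := u * (y - s)) hA
      (by rw [← neg_ne_zero, e1]; exact mul_ne_zero (mul_ne_zero hu hs0) a2) a1 b1 (by ring)
    rw [e1, h.mul _ _ (mul_ne_zero hu hs0) a2, h.mul _ _ hu hs0, b2, add_zero] at c1
    exact c1
  apply h.nondeg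
  intro v
  have t1 := main v
  have t2 := main 0
  rw [add_zero] at t2
  rw [map_add, t2, zero_add] at t1
  exact t1

end IsSymb

end Pool.Agent.Helper39.ETC
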