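import Pool.Agent.Helper39.ETC.WildSplit

set_option autoImplicit false

namespace Pool.Agent.Helper39.ETC

section

variable {D : Type*} [Group D] [TopologicalSpace D] [IsTopologicalGroup D] [CompactSpace D]

/-- `H² = 0` for compact groups acting faithfully and continuously on an Artin-Schreier closed
field of characteristic `p`, in terms of cocycles with values in `ZMod p`. -/
theorem wild_split {p : ℕ} [Fact p.Prime] {k : Type*} [Field k] [CharP k p]
    [MulSemiringAction D k] [FaithfulSMul D k]
    (hopen : ∀ x : k, IsOpen (MulAction.stabilizer D x : Set D))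
    (hAS : ∀ a : k, ∃ y : k, y ^ p - y = a)
    (c : D → D → ZMod p) (hc : ∀ s t u, c s t + c (s * t) u = c t u + c s (t * u))
    (N : Subgroup D) (hN : IsOpen (N : Set D))
    (hcN : ∀ s t, ∀ n ∈ N, ∀ m ∈ N, c (s * n) (t * m) = c s t) :
    ∃ g : D → ZMod p, (∃ N' : Subgroup D, N'.Normal ∧ IsOpen (N' : Set D) ∧
      ∀ s, ∀ n ∈ N', g (s * n) = g s) ∧ ∀ s t, c s t = g s + g t - g (s * t) := by
  classical
  have hp : p.Prime := Fact.out
  obtain ⟨N', hN'n, _, hN'open, hN'N, θ, hθ, hθ1⟩ := exists_trace_one (D := D) hopen N hN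
  let ι := ZMod.castHom (dvd_refl p) k
  have hι : ∀ (s : D) (z : ZMod p), s • ι z = ι z := by
    intro s z
    obtain ⟨n, rfl⟩ := ZMod.natCast_zmod_surjective z
    rw [map_natCast]
    exact map_natCast (MulSemiringAction.toRingHom D k s) n
  have hιinj : Function.Injective ι := RingHom.injective _
  have hθ' : ∀ s, ∀ n ∈ N', (s * n) • θ = s • θ := fun s n hn => by rw [mul_smul, hθ n hn]
  have hc1 : ∀ s t, ∀ m ∈ N', c s (t * m) = c s t := by
    intro s t m hm
    have := hcN s t 1 N.one_mem m (hN'N hm)
    rwa [mul_one] at this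
  have hc2 : ∀ s t, ∀ m ∈ N', c (s * m) t = c s t := by
    intro s t m hm
    have := hcN s t m (hN'N hm) 1 N.one_mem
    rwa [mul_one] at this
  have hconj : ∀ (s t : D), ∀ n ∈ N', (s * n * t) • θ = (s * t) • θ := by
    intro s t n hn
    have : s * n * t = s * t * (t⁻¹ * n * t) := by group
    rw [this]
    apply hθ'
    have h1 := hN'n.conj_mem n hn t⁻¹
    rwa [inv_inv] at h1
  -- the first cochain
  let a : D → k := fun s => ∑ q : D ⧸ N', ι (c s q.out) * (s * q.out) • θ
  have haN : ∀ s, ∀ n ∈ N', a (s * n) = a s := by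
    intro s n hn
    apply Finset.sum_congr rfl
    intro q _
    rw [hc2 s _ n hn, hconj s _ n hn]
  have hda : ∀ s t, a s + s • a t - a (s * t) = ι (c s t) := by
    intro s t
    have e1 : a s = ∑ q : D ⧸ N', ι (c s (t * q.out)) * (s * (t * q.out)) • θ := by
      have := sum_quot N' (fun u => ι (c s u) * (s * u) • θ) (by
        intro u n hn
        show ι (c s (u * n)) * (s * (u * n)) • θ = ι (c s u) * (s * u) • θ
        rw [hc1 s u n hn, ← mul_assoc, hθ' _ n hn]) t
      exact this.symm
    have e2 : s • a t = ∑ q : D ⧸ N', ι (c t q.out) * (s * (t * q.out)) • θ := by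
      show s • (∑ q : D ⧸ N', ι (c t q.out) * (t * q.out) • θ) = _
      rw [Finset.smul_sum]
      apply Finset.sum_congr rfl
      intro q _
      rw [smul_mul', hι, ← mul_smul]
    have e3 : a (s * t) = ∑ q : D ⧸ N', ι (c (s * t) q.out) * (s * (t * q.out)) • θ := by
      apply Finset.sum_congr rfl
      intro q _
      rw [mul_assoc]
    rw [e1, e2, e3, ← Finset.sum_add_distrib, ← Finset.sum_sub_distrib]
    have e4 : ∀ q : D ⧸ N', ι (c s (t * q.out)) * (s * (t * q.out)) • θ +
        ι (c t q.out) * (s * (t * q.out)) • θ - ι (c (s * t) q.out) * (s * (t * q.out)) • θ =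
        ι (c s t) * (s * t) • ((q.out : D) • θ) := by
      intro q
      rw [← mul_smul, mul_assoc, ← add_mul, ← sub_mul, ← map_add, ← map_sub]
      congr 2
      have := hc s t q.out
      linear_combination -this
    rw [Finset.sum_congr rfl fun q _ => e4 q, ← Finset.mul_sum, ← Finset.smul_sum, hθ1, smul_one,
      mul_one]
  -- the second cochain
  let f : D → k := fun s => a s ^ p - a s
  have hf : ∀ s t, f (s * t) = f s + s • f t := by
    intro s t
    have e1 : a (s * t) = a s + s • a t - ι (c s t) := by rw [← hda s t]; ring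
    have e2 : a (s * t) ^ p = a s ^ p + (s • a t) ^ p - ι (c s t) := by
      rw [e1, sub_pow_char, add_pow_char, ← map_pow, ZMod.pow_card]
    show a (s * t) ^ p - a (s * t) = a s ^ p - a s + s • (a t ^ p - a t)
    rw [e2, e1, smul_sub, smul_pow']
    ring
  have hfN : ∀ s, ∀ n ∈ N', f (s * n) = f s := by
    intro s n hn
    show a (s * n) ^ p - a (s * n) = a s ^ p - a s
    rw [haN s n hn]
  let b : k := ∑ q : D ⧸ N', f q.out * (q.out : D) • θ
  have hb : ∀ s, s • b = b - f s := by
    intro s
    have e1 : b = ∑ q : D ⧸ N', f (s * q.out) * (s * q.out : D) • θ := by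
      have := sum_quot N' (fun u => f u * u • θ) (by
        intro u n hn
        show f (u * n) * (u * n) • θ = f u * u • θ
        rw [hfN u n hn, hθ' _ n hn]) s
      exact this.symm
    have e2 : s • b = ∑ q : D ⧸ N', (f (s * q.out) - f s) * (s * q.out : D) • θ := by
      show s • (∑ q : D ⧸ N', f q.out * (q.out : D) • θ) = _
      rw [Finset.smul_sum]
      apply Finset.sum_congr rfl
      intro q _
      rw [smul_mul', ← mul_smul, hf s q.out]
      ring
    have e3 : ∑ q : D ⧸ N', (s * q.out : D) • θ = 1 := by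
      rw [sum_quot N' (fun u => u • θ) hθ' s]
      exact hθ1
    rw [e2]
    simp only [sub_mul]
    rw [Finset.sum_sub_distrib, ← e1, ← Finset.mul_sum, e3, mul_one]
  obtain ⟨y, hy⟩ := hAS b
  let a' : D → k := fun s => a s - (y - s • y)
  have ha' : ∀ s, a' s ^ p = a' s := by
    intro s
    have e1 : a' s ^ p = a s ^ p - (y ^ p - s • y ^ p) := by
      show (a s - (y - s • y)) ^ p = _
      rw [sub_pow_char, sub_pow_char, smul_pow']
    have e2 : a s ^ p - a s = b - s • b := by rw [hb]; show f s = _; ring
    have e3 : b - s • b = y ^ p - y - (s • y ^ p - s • y) := by rw [← hy, smul_sub]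
    rw [e1]
    show a s ^ p - (y ^ p - s • y ^ p) = a s - (y - s • y)
    linear_combination e2 + e3
  choose g hg using fun s => mem_prime_field (ha' s)
  have hg' : ∀ s, ι (g s) = a' s := hg
  refine ⟨g, ?_, fun s t => ?_⟩
  · obtain ⟨M, hM1, hM2, hM3, -⟩ := exists_core (N' ⊓ MulAction.stabilizer D y)
      (by rw [Subgroup.coe_inf]; exact hN'open.inter (hopen y))
    refine ⟨M, hM1, hM2, fun s n hn => ?_⟩
    apply hιinj
    rw [hg', hg']
    show a (s * n) - (y - (s * n) • y) = a s - (y - s • y)
    have h1 := hM3 hn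
    have h2 : n • y = y := h1.2
    rw [haN s n h1.1, mul_smul, h2]
  · apply hιinj
    rw [map_sub, map_add, hg', hg', hg', ← hda s t]
    have e1 : s • a' t = a' t := by rw [← hg', hι]
    have e2 : s • a' t = s • a t - (s • y - (s * t) • y) := by
      show s • (a t - (y - t • y)) = _
      rw [smul_sub, smul_sub, mul_smul]
    show a s + s • a t - a (s * t) = (a s - (y - s • y)) + a' t -
      (a (s * t) - (y - (s * t) • y))
    rw [← e1, e2]
    ring

end

end Pool.Agent.Helper39.ETC
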