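import Mathlib

set_option autoImplicit false

namespace Pool.Agent.Helper39.ETC

open Polynomial in
theorem mem_prime_field {p : ℕ} [Fact p.Prime] {k : Type*} [Field k] [CharP k p] {x : k}
    (hx : x ^ p = x) : ∃ z : ZMod p, ZMod.castHom (dvd_refl p) k z = x := by
  classical
  have hp : 1 < p := (Fact.out : p.Prime).one_lt
  set P : k[X] := X ^ p - X with hP
  have hP0 : P ≠ 0 := FiniteField.X_pow_card_sub_X_ne_zero k hp
  have hdeg : P.natDegree = p := FiniteField.X_pow_card_sub_X_natDegree_eq k hp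
  have hinj : Function.Injective (ZMod.castHom (dvd_refl p) k) := RingHom.injective _
  have hsub : (Finset.univ.image (ZMod.castHom (dvd_refl p) k)) ⊆ P.roots.toFinset := by
    intro y hy
    obtain ⟨z, -, rfl⟩ := Finset.mem_image.1 hy
    rw [Multiset.mem_toFinset, mem_roots hP0, IsRoot.def, hP, eval_sub, eval_pow, eval_X,
      ← map_pow, ZMod.pow_card, sub_self]
  have hcard : P.roots.toFinset.card ≤ (Finset.univ.image (ZMod.castHom (dvd_refl p) k)).card := by
    rw [Finset.card_image_of_injective _ hinj, Finset.card_univ, ZMod.card]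
    calc P.roots.toFinset.card ≤ Multiset.card P.roots := Multiset.toFinset_card_le _
      _ ≤ P.natDegree := card_roots' P
      _ = p := hdeg
  have heq := Finset.eq_of_subset_of_card_le hsub hcard
  have hxm : x ∈ P.roots.toFinset := by
    rw [Multiset.mem_toFinset, mem_roots hP0, IsRoot.def, hP, eval_sub, eval_pow, eval_X, hx,
      sub_self]
  rw [← heq] at hxm
  obtain ⟨z, -, hz⟩ := Finset.mem_image.1 hxm
  exact ⟨z, hz⟩

section

variable {D : Type*} [Group D] [TopologicalSpace D] [IsTopologicalGroup D] [CompactSpace D]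

/-- The normal core of an open subgroup of a compact group is open. -/
theorem isOpen_normalCore (H : Subgroup D) (hH : IsOpen (H : Set D)) :
    IsOpen (H.normalCore : Set D) := by
  have : Finite (D ⧸ H) := H.quotient_finite_of_isOpen hH
  have : H.FiniteIndex := H.finiteIndex_of_finite_quotient
  exact Subgroup.isOpen_of_isClosed_of_finiteIndex _
    (H.normalCore_isClosed (H.isClosed_of_isOpen hH))

theorem sum_quot {M : Type*} [AddCommMonoid M] (N : Subgroup D) [N.Normal] [Fintype (D ⧸ N)]
    (φ : D → M) (hφ : ∀ s, ∀ n ∈ N, φ (s * n) = φ s) (t : D) :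
    ∑ q : D ⧸ N, φ (t * q.out) = ∑ q : D ⧸ N, φ q.out := by
  rw [← Equiv.sum_comp (Equiv.mulLeft ((t : D) : D ⧸ N)) (fun q => φ q.out)]
  apply Finset.sum_congr rfl
  intro q _
  rw [Equiv.coe_mulLeft]
  have h1 : (((((t : D) : D ⧸ N) * q).out : D) : D ⧸ N) = ((t * q.out : D) : D ⧸ N) := by
    rw [QuotientGroup.out_eq', QuotientGroup.mk_mul, QuotientGroup.out_eq']
  rw [QuotientGroup.eq] at h1
  have h2 := hφ ((((t : D) : D ⧸ N) * q).out) _ h1
  rw [mul_inv_cancel_left] at h2
  exact h2

theorem exists_core (S : Subgroup D) (hS : IsOpen (S : Set D)) :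
    ∃ N' : Subgroup D, N'.Normal ∧ IsOpen (N' : Set D) ∧ N' ≤ S ∧
      ∀ g, (∀ b, b * g * b⁻¹ ∈ S) → g ∈ N' :=
  ⟨S.normalCore, inferInstance, isOpen_normalCore S hS, Subgroup.normalCore_le S,
    fun _ hg => hg⟩

/-- Elements of trace one for actions of compact groups on fields. -/
theorem exists_trace_one {k : Type*} [Field k] [MulSemiringAction D k] [FaithfulSMul D k]
    (hopen : ∀ x : k, IsOpen (MulAction.stabilizer D x : Set D))
    (N : Subgroup D) (hN : IsOpen (N : Set D)) :
    ∃ (N' : Subgroup D) (_ : N'.Normal) (_ : Fintype (D ⧸ N')), IsOpen (N' : Set D) ∧ N' ≤ N ∧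
      ∃ θ : k, (∀ n ∈ N', n • θ = θ) ∧ ∑ q : D ⧸ N', (q.out : D) • θ = 1 := by
  classical
  -- a finite set of points whose common stabiliser is in N
  have hcover : ((N : Set D)ᶜ) ⊆ ⋃ x : k, ((MulAction.stabilizer D x : Set D)ᶜ) := by
    intro g hg
    have hg1 : g ≠ 1 := by rintro rfl; exact hg N.one_mem
    have : ∃ x : k, g • x ≠ x := by
      by_contra hcon
      push Not at hcon
      apply hg1
      apply FaithfulSMul.eq_of_smul_eq_smul (α := k)
      intro x
      rw [hcon x, one_smul]
    obtain ⟨x, hx⟩ := this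
    exact Set.mem_iUnion.2 ⟨x, hx⟩
  obtain ⟨X, hX⟩ := (N.isClosed_of_isOpen hN |>.isOpen_compl.isClosed_compl |> fun _ =>
    (hN.isClosed_compl.isCompact)).elim_finite_subcover
    (fun x : k => ((MulAction.stabilizer D x : Set D)ᶜ))
    (fun x => (Subgroup.isClosed_of_isOpen _ (hopen x)).isOpen_compl) hcover
  set S : Subgroup D := ⨅ x ∈ X, MulAction.stabilizer D x with hS
  have hSopen : IsOpen (S : Set D) := by
    rw [hS]
    simp only [Subgroup.coe_iInf]
    exact isOpen_biInter_finset fun x _ => hopen x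
  have hSN : S ≤ N := by
    intro g hg
    by_contra hgN
    obtain ⟨x, hx⟩ := Set.mem_iUnion.1 (hX hgN)
    obtain ⟨hxX, hx⟩ := Set.mem_iUnion.1 hx
    apply hx
    exact (Subgroup.mem_iInf.1 ((Subgroup.mem_iInf.1 hg) x)) hxX
  obtain ⟨N', hN'n, hopen', hN'S, hN'max⟩ := exists_core S hSopen
  have hfin : Finite (D ⧸ N') := Subgroup.quotient_finite_of_isOpen _ hopen'
  refine ⟨N', hN'n, Fintype.ofFinite _, hopen', hN'S.trans hSN, ?_⟩
  let _ : Fintype (D ⧸ N') := Fintype.ofFinite _
  -- the submonoid of fixed elements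
  let k' : Submonoid k :=
    { carrier := {x | ∀ n ∈ N', n • x = x}
      one_mem' := fun n _ => smul_one n
      mul_mem' := by
        intro a b ha hb n hn
        rw [smul_mul', ha n hn, hb n hn] }
  let χ : D ⧸ N' → (k' →* k) := fun q =>
    (MulSemiringAction.toRingHom D k q.out).toMonoidHom.comp k'.subtype
  have hχ : Function.Injective χ := by
    intro q r hqr
    have h1 : ∀ x ∈ k', (q.out : D) • x = (r.out : D) • x := by
      intro x hx
      exact DFunLike.congr_fun hqr ⟨x, hx⟩
    have h2 : (r.out : D)⁻¹ * q.out ∈ N' := by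
      apply hN'max
      intro b
      rw [hS, Subgroup.mem_iInf]
      intro x
      rw [Subgroup.mem_iInf]
      intro hx
      rw [MulAction.mem_stabilizer_iff]
      have hmem : b⁻¹ • x ∈ k' := by
        intro n hn
        have h3 : b * n * b⁻¹ ∈ N' := hN'n.conj_mem n hn b
        have h4 : b * n * b⁻¹ ∈ S := hN'S h3
        have h5 : (b * n * b⁻¹) • x = x :=
          (Subgroup.mem_iInf.1 ((Subgroup.mem_iInf.1 h4) x)) hx
        have h6 : n • b⁻¹ • x = b⁻¹ • ((b * n * b⁻¹) • x) := by
          rw [← mul_smul, ← mul_smul]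
          congr 1
          group
        rw [h6, h5]
      have h6 := h1 _ hmem
      rw [← smul_smul, ← smul_smul, ← smul_smul, h6, inv_smul_smul, smul_inv_smul]
    have h7 : ((r.out : D) : D ⧸ N') = ((q.out : D) : D ⧸ N') := QuotientGroup.eq.2 h2
    rw [QuotientGroup.out_eq', QuotientGroup.out_eq'] at h7
    exact h7.symm
  have hind := (linearIndependent_monoidHom k' k).comp χ hχ
  have hne : ∃ x ∈ k', ∑ q : D ⧸ N', (q.out : D) • x ≠ 0 := by
    by_contra hcon
    push Not at hcon
    have h1 : ∑ q : D ⧸ N', (1 : k) • (fun y : k' => χ q y) = 0 := by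
      funext y
      rw [Finset.sum_apply]
      simp only [Pi.smul_apply, smul_eq_mul, one_mul, Pi.zero_apply]
      exact hcon y.1 y.2
    have h2 := Fintype.linearIndependent_iff.1 hind (fun _ => 1) h1 ((1 : D) : D ⧸ N')
    exact one_ne_zero h2
  obtain ⟨x, hx, hx0⟩ := hne
  set T := ∑ q : D ⧸ N', (q.out : D) • x with hT
  have hinv : ∀ s : D, ∀ n ∈ N', (s * n) • x = s • x := by
    intro s n hn
    rw [mul_smul, hx n hn]
  have hTfix : ∀ s : D, s • T = T := by
    intro s
    rw [hT, Finset.smul_sum]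
    simp only [smul_smul]
    exact sum_quot N' (fun s => s • x) hinv s
  refine ⟨x / T, fun n hn => ?_, ?_⟩
  · rw [div_eq_mul_inv, smul_mul', smul_inv'', hTfix, hx n hn]
  · have : ∀ q : D ⧸ N', (q.out : D) • (x / T) = ((q.out : D) • x) / T := by
      intro q
      rw [div_eq_mul_inv, smul_mul', smul_inv'', hTfix, div_eq_mul_inv]
    rw [Finset.sum_congr rfl fun q _ => this q, ← Finset.sum_div]
    exact div_self hx0

end

end Pool.Agent.Helper39.ETC
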